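import Pool.Agent.H616Z.GLP.Final

set_option autoImplicit false

namespace Pool.Agent.Results.MP_a8f639_lc.Decidable

open Pool.Agent.H616Z.GLPAdm

/-- The admissibility problem for `GLP` is decidable: a computable function of the Gödel numbers
of `a` and `b` tells whether the rule `a / b` is admissible. -/
theorem result : ∃ f : ℕ × ℕ → Bool, Computable f ∧
    ∀ a b : Fm, f (a.code, b.code) = true ↔ Admissible a b :=
  main

end Pool.Agent.Results.MP_a8f639_lc.Decidable
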